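import Pool.Agent.Helper60.FA.Case2

/-!
# MP_4abee9_co: every antichain equivalent to a maximal squashed flat antichain is flat
-/

namespace Pool.Agent.Results.MP_4abee9_co.OnlyFlat

open Finset

variable {n : ℕ}

/-- No member is properly contained in another. -/
def IsAntichainFam (F : Finset (Finset (Fin n))) : Prop := ∀ s ∈ F, ∀ t ∈ F, ¬ s ⊂ t

/-- The volume `V(F) = ∑ |s|`. -/
def volume (F : Finset (Finset (Fin n))) : ℕ := ∑ s ∈ F, s.card

/-- Same size and same volume. -/
def Equivalent (F G : Finset (Finset (Fin n))) : Prop := F.card = G.card ∧ volume F = volume G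

/-- All members have size `k - 1` or `k`, for some `1 ≤ k ≤ n`. -/
def IsFlat (F : Finset (Finset (Fin n))) : Prop :=
  ∃ k : ℕ, 1 ≤ k ∧ k ≤ n ∧ ∀ s ∈ F, s.card = k - 1 ∨ s.card = k

/-- The squashed order: the largest element of the symmetric difference belongs to `G`. -/
def SqLt (F G : Finset (Fin n)) : Prop :=
  ∃ h : (symmDiff F G).Nonempty, (symmDiff F G).max' h ∈ G

/-- `A` consists of the first `|A|` of the `k`-sets in squashed order. -/
def IsInitial (k : ℕ) (A : Finset (Finset (Fin n))) : Prop :=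
  (∀ s ∈ A, s.card = k) ∧ ∀ s ∈ A, ∀ t : Finset (Fin n), t.card = k → SqLt t s → t ∈ A

/-- Maximal squashed flat antichains: `F = A ∪ B` with `A` initial in the `k`-sets, `B` the set of
the `(k-1)`-sets outside the shadow of `A`, and every `k`-set outside `A` contains a member
of `B`. -/
def IsMSFA (F : Finset (Finset (Fin n))) : Prop :=
  ∃ (k : ℕ) (A B : Finset (Finset (Fin n))), 1 ≤ k ∧ k ≤ n ∧ IsInitial k A ∧
    (∀ t : Finset (Fin n), t ∈ B ↔ t.card = k - 1 ∧ ¬ ∃ s ∈ A, t ⊆ s) ∧
    (∀ s : Finset (Fin n), s.card = k → s ∉ A → ∃ t ∈ B, t ⊆ s) ∧ F = A ∪ B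

section Proof

open Pool.Agent.Helper60.FA Finset.Colex
open scoped FinsetFamily

lemma sqLt_iff {s t : Finset (Fin n)} : SqLt s t ↔ toColex s < toColex t := by
  rw [toColex_lt_toColex_iff_max'_mem]
  constructor
  · rintro ⟨h, hm⟩
    exact ⟨fun hst => by rw [hst, symmDiff_self] at h; exact absurd h (by simp), hm⟩
  · rintro ⟨h, hm⟩
    exact ⟨symmDiff_nonempty.2 h, hm⟩

lemma isInitSeg_of {k : ℕ} {A : Finset (Finset (Fin n))} (h : IsInitial k A) : IsInitSeg A k :=
  ⟨fun s hs => h.1 s hs, fun s t hs ht => h.2 s hs t ht.2 (sqLt_iff.2 ht.1)⟩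

lemma antichain_of {F : Finset (Finset (Fin n))} (h : IsAntichainFam F) :
    IsAntichain (· ⊆ ·) (F : Set (Finset (Fin n))) := by
  intro s hs t ht hne hst
  exact h s hs t ht (hst.ssubset_of_ne hne)

lemma X_compls (F : Finset (Finset (Fin n))) (i : ℕ) :
    X Fᶜˢ i = ∑ s ∈ F, (n - s.card + 1 - i) := by
  rw [X, ← image_compl, sum_image (by intro a _ b _ h; exact compl_injective h)]
  refine sum_congr rfl fun s _ => ?_
  rw [card_compl, Fintype.card_fin]

end Proof

open Pool.Agent.Helper60.FA Finset.Colex in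
open scoped FinsetFamily in
/-- **Answer to Q1.** For every `n ≥ 1`, every antichain in `B_n` which is equivalent to a maximal
squashed flat antichain is flat. -/
theorem result (n : ℕ) (_hn : 1 ≤ n) (F G : Finset (Finset (Fin n))) (hF : IsMSFA F)
    (hG : IsAntichainFam G) (hGF : Equivalent G F) : IsFlat G := by
  obtain ⟨k, A, B, hk, hkn, hA, hB, hmax, rfl⟩ := hF
  by_contra hnf
  have hAs := isInitSeg_of hA
  have hGa := antichain_of hG
  -- shadow of A
  have hshadow : ∀ t : Finset (Fin n), t ∈ ∂ A ↔ t.card = k - 1 ∧ ∃ s ∈ A, t ⊆ s := by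
    intro t
    constructor
    · intro ht
      refine ⟨hAs.1.shadow ht, ?_⟩
      rw [mem_shadow_iff] at ht
      obtain ⟨s, hs, a, _, rfl⟩ := ht
      exact ⟨s, hs, erase_subset _ _⟩
    · rintro ⟨htc, s, hs, hts⟩
      rw [mem_shadow_iff_exists_mem_card_add_one]
      exact ⟨s, hs, hts, by rw [hA.1 s hs, htc]; omega⟩
  have hBe : B = powersetCard (k - 1) univ \ ∂ A := by
    ext t
    rw [hB, mem_sdiff, mem_powersetCard, hshadow]
    constructor
    · rintro ⟨h1, h2⟩
      exact ⟨⟨subset_univ _, h1⟩, fun h => h2 h.2⟩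
    · rintro ⟨⟨_, h1⟩, h2⟩
      exact ⟨h1, fun h => h2 ⟨h1, h⟩⟩
  have hSs : ∂ A ⊆ powersetCard (k - 1) (univ : Finset (Fin n)) := by
    intro s hs
    rw [mem_powersetCard]
    exact ⟨subset_univ _, hAs.1.shadow hs⟩
  have hDA := card_shadow_initSeg hk hAs rfl
  have hBc : D k A.card + B.card = n.choose (k - 1) := by
    have h1 := card_le_card hSs
    rw [card_powersetCard, card_univ, Fintype.card_fin] at h1
    rw [hBe, card_sdiff_of_subset hSs, card_powersetCard, card_univ, Fintype.card_fin, ← hDA]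
    omega
  have hdisj : Disjoint A B := by
    rw [disjoint_left]
    intro s hs hsB
    have h1 := hA.1 s hs
    have h2 := ((hB s).1 hsB).1
    omega
  have hsize : G.card = A.card + B.card := by
    rw [hGF.1, card_union_of_disjoint hdisj]
  have hvol : volume G = k * A.card + (k - 1) * B.card := by
    rw [hGF.2, volume, sum_union hdisj, sum_const_nat (fun s hs => hA.1 s hs),
      sum_const_nat (fun s hs => ((hB s).1 hs).1)]
    ring
  -- the moments
  have hle : ∀ s ∈ G, s.card ≤ n := fun s _ => card_finset_fin_le s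
  have h1 : X G k = A.card + X Gᶜˢ (n - k + 2) := by
    have e1 : X G k + (k - 1) * G.card = volume G + X Gᶜˢ (n - k + 2) := by
      have : (k - 1) * G.card = ∑ _s ∈ G, (k - 1) := by rw [sum_const, smul_eq_mul, mul_comm]
      rw [X_compls, X, volume, this, ← sum_add_distrib, ← sum_add_distrib]
      refine sum_congr rfl fun s hs => ?_
      have := hle s hs
      omega
    rw [hvol, hsize] at e1
    obtain ⟨j, rfl⟩ : ∃ j, k = j + 1 := ⟨k - 1, by omega⟩
    simp only [Nat.add_sub_cancel] at e1 ⊢
    nlinarith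
  have h2 : X Gᶜˢ (n - k + 1) = B.card + X G (k + 1) := by
    have e1 : X Gᶜˢ (n - k + 1) + volume G = k * G.card + X G (k + 1) := by
      have : k * G.card = ∑ _s ∈ G, k := by rw [sum_const, smul_eq_mul, mul_comm]
      rw [X_compls, X, volume, this, ← sum_add_distrib, ← sum_add_distrib]
      refine sum_congr rfl fun s hs => ?_
      have := hle s hs
      omega
    rw [hvol, hsize] at e1
    obtain ⟨j, rfl⟩ : ∃ j, k = j + 1 := ⟨k - 1, by omega⟩
    simp only [Nat.add_sub_cancel] at e1 ⊢
    nlinarith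
  have hnf' : 1 ≤ X G (k + 1) ∨ 1 ≤ X Gᶜˢ (n - k + 2) := by
    by_contra hcon
    push Not at hcon
    apply hnf
    refine ⟨k, hk, hkn, fun s hs => ?_⟩
    have c1 : X G (k + 1) = 0 := by omega
    have c2 : X Gᶜˢ (n - k + 2) = 0 := by omega
    rw [X, sum_eq_zero_iff] at c1
    rw [X_compls, sum_eq_zero_iff] at c2
    have := c1 s hs
    have := c2 s hs
    have := hle s hs
    omega
  rcases main_ineq hGa hk hkn h1 h2 hnf' with h | h
  · omega
  · -- the next set can be added to `A`
    have hb : B.card ≤ n.choose (n - k + 1) := by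
      have : n.choose (n - k + 1) = n.choose (k - 1) := by
        rw [← Nat.choose_symm (by omega : k - 1 ≤ n)]
        congr 1
        omega
      rw [this]
      omega
    have h3 := dual (n := n) (k := n - k + 1) (p := B.card) (q := A.card + 1) (by omega) (by omega) hb
      (by rw [Nat.add_sub_cancel, Nat.choose_symm hkn]; omega)
    have e1 : n - (n - k + 1) + 1 = k := by omega
    have e2 : n.choose (n - k + 1) = n.choose (k - 1) := by
      rw [← Nat.choose_symm (by omega : k - 1 ≤ n)]
      congr 1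
      omega
    rw [e1, e2] at h3
    have hDle : D k (A.card + 1) ≤ D k A.card := by omega
    obtain ⟨s, hsA, hsk, hins⟩ := exists_initSeg_succ hAs (by omega)
    have hcard := card_shadow_initSeg hk hins (card_insert_of_notMem hsA)
    have hsub : ∂ A ⊆ ∂ (insert s A) := shadow_mono (subset_insert _ _)
    have heq : ∂ A = ∂ (insert s A) := eq_of_subset_of_card_le hsub (by rw [hcard, hDA]; exact hDle)
    obtain ⟨t, htB, hts⟩ := hmax s hsk hsA
    have ht := (hB t).1 htB
    apply ht.2
    have h5 : t ∈ ∂ (insert s A) := by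
      rw [mem_shadow_iff_exists_mem_card_add_one]
      exact ⟨s, mem_insert_self _ _, hts, by rw [hsk, ht.1]; omega⟩
    rw [← heq] at h5
    exact ((hshadow t).1 h5).2

end Pool.Agent.Results.MP_4abee9_co.OnlyFlat
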